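import Mathlib
import Pool.Agent.Q103.CV2.Cov

set_option autoImplicit false

/-!
# No finite set of primitive elements of the free group of rank two is rigid on `CV_2`
-/

namespace Pool.Agent.Results.MP_9fd1ce_al.NoFiniteRigid

open Pool.Agent.H67R3.FSR Pool.Agent.H472R3 Pool.Agent.H67R4.SR Pool.Agent.Q103.CV2

/-- A point of `CV_2`: a free, minimal isometric action of the free group of rank two with discrete
orbits on an R-tree, of co-volume one. -/
def InCV1 (A : FTree 2) : Prop := A.InCV ∧ HasCovolume A 1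

/-- `S` is `CV_2`-rigid. -/
def Rigid (S : Set F2) : Prop :=
  ∀ A B : FTree 2, InCV1 A → InCV1 B → (∀ g ∈ S, A.len g = B.len g) → A.Same B

/-! ### The weights -/

noncomputable def w1 : Fin 2 → ℝ := ![1 / 4, 3 / 4]

noncomputable def w2 : Fin 3 → ℝ := ![1 / 4, 1 / 4, 1 / 2]

theorem w1_ge (i : Fin 2) : 1 / 4 ≤ w1 i := by
  fin_cases i
  · exact le_rfl
  · change (1 / 4 : ℝ) ≤ 3 / 4
    norm_num

theorem w2_ge (i : Fin 3) : 1 / 4 ≤ w2 i := by
  fin_cases i
  · exact le_rfl
  · exact le_rfl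
  · change (1 / 4 : ℝ) ≤ 1 / 2
    norm_num

theorem w1_pos (i : Fin 2) : 0 < w1 i := lt_of_lt_of_le (by norm_num) (w1_ge i)

theorem w2_pos (i : Fin 3) : 0 < w2 i := lt_of_lt_of_le (by norm_num) (w2_ge i)

theorem w1_nn (i : Fin 2) : 0 ≤ w1 i := (w1_pos i).le

theorem w2_nn (i : Fin 3) : 0 ≤ w2 i := (w2_pos i).le

abbrev F3 := FreeGroup (Fin 3)

/-- The marking of the dumbbell. -/
def psi : F2 →* F3 := FreeGroup.lift ![FreeGroup.of 0,
  (FreeGroup.of 0)⁻¹ * FreeGroup.of 1 * FreeGroup.of 2 * (FreeGroup.of 1)⁻¹]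

def ret : F3 →* F2 := FreeGroup.lift ![ga, 1, ga * gb]

theorem psi_a : psi ga = FreeGroup.of 0 := by simp [psi, ga]

theorem psi_b : psi gb = (FreeGroup.of 0)⁻¹ * FreeGroup.of 1 * FreeGroup.of 2 *
    (FreeGroup.of 1)⁻¹ := by simp [psi, gb]

theorem ret_psi (g : F2) : ret (psi g) = g := by
  have : ret.comp psi = MonoidHom.id _ := by
    apply FreeGroup.ext_hom
    intro i
    fin_cases i
    · simp [psi, ret, ga]
    · simp [psi, ret, ga, gb]
  exact DFunLike.congr_fun this g

theorem psi_inj : Function.Injective psi := fun a b h => by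
  rw [← ret_psi a, h, ret_psi]

/-- The marking of the rose. -/
def m1 (n : ℕ) : F2 →* F2 := (alpha n).toMonoidHom

/-- The marking of the dumbbell. -/
def m2 (n : ℕ) : F2 →* F3 := psi.comp (alpha n).toMonoidHom

theorem m1_apply (n : ℕ) (g : F2) : m1 n g = alpha n g := rfl

theorem m2_apply (n : ℕ) (g : F2) : m2 n g = psi (alpha n g) := rfl

theorem m1_inj (n : ℕ) : Function.Injective (m1 n) := (alpha n).injective

theorem m2_inj (n : ℕ) : Function.Injective (m2 n) := psi_inj.comp (alpha n).injective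

/-- The first tree. -/
noncomputable def T1 (n : ℕ) : FTree 2 := (lenOf w1_nn (m1 n)).tree

/-- The second tree. -/
noncomputable def T2 (n : ℕ) : FTree 2 := (lenOf w2_nn (m2 n)).tree

theorem T1_inCV (n : ℕ) : (T1 n).InCV := by
  apply lenOf_inCV' (ε := 1 / 4) (by norm_num) w1_ge (h := (alpha n).symm ga)
  · intro g hg h
    exact hg ((map_eq_one_iff _ (m1_inj n)).mp h)
  · rw [m1_apply, MulEquiv.apply_symm_apply, ga, FreeGroup.toWord_of]
    unfold FreeGroup.IsReduced
    simp
  · rw [m1_apply, MulEquiv.apply_symm_apply]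
    exact FreeGroup.of_ne_one _

theorem T2_inCV (n : ℕ) : (T2 n).InCV := by
  apply lenOf_inCV' (ε := 1 / 4) (by norm_num) w2_ge (h := (alpha n).symm ga)
  · intro g hg h
    exact hg ((map_eq_one_iff _ (m2_inj n)).mp h)
  · rw [m2_apply, MulEquiv.apply_symm_apply, psi_a, FreeGroup.toWord_of]
    unfold FreeGroup.IsReduced
    simp
  · rw [m2_apply, MulEquiv.apply_symm_apply, psi_a]
    exact FreeGroup.of_ne_one _

theorem left_mem {T : Type} [MetricSpace T] (x y : T) : x ∈ Seg x y := by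
  change dist x x + dist x y = dist x y
  rw [dist_self, zero_add]

theorem closure_symm (n : ℕ) {G : Set F2} (hG : Subgroup.closure G = ⊤) :
    Subgroup.closure ((alpha n).symm '' G) = ⊤ := by
  have h : ((alpha n).symm '' G) = (((alpha n).symm : F2 ≃* F2) : F2 →* F2) '' G := rfl
  rw [h, ← MonoidHom.map_closure, hG]
  exact Subgroup.map_top_of_surjective _ (alpha n).symm.surjective

theorem T1_covol (n : ℕ) : HasCovolume (T1 n) 1 := by
  have hs : ∑ i, w1 i = 1 := by
    rw [Fin.sum_univ_two]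
    simp [w1]
    norm_num
  rw [← hs]
  refine hasCovolume_of w1_pos (m1_inj n) (fun _ => 1) (fun _ => (lenOf w1_nn (m1 n)).base)
    (fun i => (alpha n).symm (FreeGroup.of i) • (lenOf w1_nn (m1 n)).base) (fun i => rp_one _ _)
    (fun i => ?_) ?_
  · have := rp_base w1_nn (m1 n) ((alpha n).symm (FreeGroup.of i))
    rw [m1_apply, MulEquiv.apply_symm_apply] at this
    rw [one_mul]
    exact this
  · intro p
    refine cover (K := {p | ∃ (g : FreeGroup (Fin 2)) (i : Fin 2), g • p ∈
      Seg (lenOf w1_nn (m1 n)).base ((alpha n).symm (FreeGroup.of i) •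
        (lenOf w1_nn (m1 n)).base)}) ?_ ?_ (G := (alpha n).symm '' Set.range FreeGroup.of) ?_ ?_ p
    · rintro g p ⟨g', i, h⟩
      refine ⟨g' * g⁻¹, i, ?_⟩
      rw [← mul_smul, inv_mul_cancel_right]
      exact h
    · refine ⟨1, 0, ?_⟩
      rw [one_smul]
      exact left_mem _ _
    · exact closure_symm n (FreeGroup.closure_range_of _)
    · rintro _ ⟨_, ⟨i, rfl⟩, rfl⟩ q hq
      exact ⟨1, i, by rw [one_smul]; exact hq⟩

theorem gens : Subgroup.closure ({ga, ga * gb} : Set F2) = ⊤ := by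
  rw [eq_top_iff, ← FreeGroup.closure_range_of, Subgroup.closure_le]
  rintro _ ⟨i, rfl⟩
  have h1 : ga ∈ Subgroup.closure ({ga, ga * gb} : Set F2) := Subgroup.subset_closure (by simp)
  have h2 : ga * gb ∈ Subgroup.closure ({ga, ga * gb} : Set F2) :=
    Subgroup.subset_closure (by simp)
  fin_cases i
  · exact h1
  · have h3 := Subgroup.mul_mem _ (Subgroup.inv_mem _ h1) h2
    rw [inv_mul_cancel_left] at h3
    exact h3

theorem psi_ab : psi (ga * gb) = FreeGroup.of 1 * FreeGroup.of 2 * (FreeGroup.of 1)⁻¹ := by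
  rw [map_mul, psi_a, psi_b]
  group

theorem wl_list {M : ℕ} {w : Fin M → ℝ} {l : List (Lt M)} (h : FreeGroup.IsReduced l)
    {g : FreeGroup (Fin M)} (hg : g = FreeGroup.mk l) : wl w g = W w l := by
  rw [hg, wl_mk h]

theorem exists_q (n : ℕ) : ∃ q, Rp w2_nn (m2 n) (FreeGroup.of 1) q := by
  apply exists_rp 1 ((alpha n).symm (ga * gb))
  rw [m2_apply, m2_apply, MulEquiv.apply_symm_apply, map_one, map_one, psi_ab]
  have e1 : wl w2 ((FreeGroup.of 1)⁻¹ * 1) = 1 / 4 := by
    rw [wl_list (l := [(1, false)]) (by unfold FreeGroup.IsReduced; simp) (by rfl)]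
    simp [W, w2]
  have e2 : wl w2 ((FreeGroup.of 1)⁻¹ * (FreeGroup.of 1 * FreeGroup.of 2 * (FreeGroup.of 1)⁻¹)) =
      3 / 4 := by
    rw [wl_list (l := [(2, true), (1, false)]) (by unfold FreeGroup.IsReduced; simp)
      (by rw [mul_assoc, inv_mul_cancel_left]; rfl)]
    simp [W, w2]
    norm_num
  have e3 : wl w2 (1⁻¹ * (FreeGroup.of 1 * FreeGroup.of 2 * (FreeGroup.of 1)⁻¹)) = 1 := by
    rw [wl_list (l := [(1, true), (2, true), (1, false)])
      (by unfold FreeGroup.IsReduced; simp) (by rw [inv_one, one_mul]; rfl)]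
    simp [W, w2]
    norm_num
  rw [e1, e2, e3]
  norm_num

theorem T2_covol (n : ℕ) : HasCovolume (T2 n) 1 := by
  have hs : ∑ i, w2 i = 1 := by
    rw [Fin.sum_univ_three]
    simp [w2]
    norm_num
  rw [← hs]
  obtain ⟨q, hq⟩ := exists_q n
  have hB := hq.smul ((alpha n).symm (ga * gb))
  rw [m2_apply, MulEquiv.apply_symm_apply, psi_ab, inv_mul_cancel_right] at hB
  have hA := rp_base w2_nn (m2 n) ((alpha n).symm ga)
  rw [m2_apply, MulEquiv.apply_symm_apply, psi_a] at hA
  have ho := rp_one w2_nn (m2 n)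
  have htree := (lenOf w2_nn (m2 n)).tree.isRTree
  have hiso := (lenOf w2_nn (m2 n)).tree.isometric
  set o := (lenOf w2_nn (m2 n)).base with hodef
  set A' := (alpha n).symm ga with hA'
  set B' := (alpha n).symm (ga * gb) with hB'
  have mA : ∀ p ∈ Seg o (A' • o), ∃ (g : FreeGroup (Fin 2)) (i : Fin 3), g • p ∈
      Seg ((![o, o, q] : Fin 3 → _) i) ((![A' • o, q, B' • q] : Fin 3 → _) i) := by
    intro p hp
    exact ⟨1, 0, by rw [one_smul]; exact hp⟩
  have mB : ∀ p ∈ Seg o (B' • o), ∃ (g : FreeGroup (Fin 2)) (i : Fin 3), g • p ∈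
      Seg ((![o, o, q] : Fin 3 → _) i) ((![A' • o, q, B' • q] : Fin 3 → _) i) := by
    intro p hp
    rcases seg_split htree q hp with h1 | h1
    · exact ⟨1, 1, by rw [one_smul]; exact h1⟩
    rcases seg_split htree (B' • q) h1 with h2 | h2
    · exact ⟨1, 2, by rw [one_smul]; exact h2⟩
    · refine ⟨B'⁻¹, 1, ?_⟩
      change B'⁻¹ • p ∈ Seg o q
      rw [seg_symm]
      change dist q (B'⁻¹ • p) + dist (B'⁻¹ • p) o = dist q o
      rw [← hiso B' q, ← hiso B' (B'⁻¹ • p), smul_inv_smul, ← hiso B' q]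
      exact h2
  refine hasCovolume_of w2_pos (m2_inj n) ![1, 1, FreeGroup.of 1] ![o, o, q]
    ![A' • o, q, B' • q] (fun i => ?_) (fun i => ?_) ?_
  · fin_cases i
    · exact ho
    · exact ho
    · exact hq
  · fin_cases i
    · change Rp w2_nn (m2 n) (1 * FreeGroup.of 0) (A' • o)
      rw [one_mul]
      exact hA
    · change Rp w2_nn (m2 n) (1 * FreeGroup.of 1) q
      rw [one_mul]
      exact hq
    · exact hB
  · intro p
    refine cover (K := {p | ∃ (g : FreeGroup (Fin 2)) (i : Fin 3), g • p ∈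
      Seg ((![o, o, q] : Fin 3 → _) i) ((![A' • o, q, B' • q] : Fin 3 → _) i)}) ?_ ?_
      (G := (alpha n).symm '' {ga, ga * gb}) ?_ ?_ p
    · rintro g p ⟨g', i, h⟩
      refine ⟨g' * g⁻¹, i, ?_⟩
      rw [← mul_smul, inv_mul_cancel_right]
      exact h
    · exact mA o (left_mem _ _)
    · exact closure_symm n gens
    · rintro _ ⟨g, hg, rfl⟩ q hq
      rcases hg with rfl | rfl
      · exact mA q hq
      · exact mB q hq

/-! ### Lengths -/

def U1 : Bool → List (Lt 2)
  | false => [(0, true)]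
  | true => [(0, true), (0, true), (1, true)]

def U2 : Bool → List (Lt 3)
  | false => [(0, true)]
  | true => [(0, true), (1, true), (2, true), (1, false)]

theorem mk_U1 : ∀ l : List Bool, (l.map uv).prod = FreeGroup.mk (l.flatMap U1)
  | [] => rfl
  | x :: l => by
    rw [List.map_cons, List.prod_cons, mk_U1 l, List.flatMap_cons, ← FreeGroup.mul_mk]
    cases x <;> rfl

theorem mk_U2 : ∀ l : List Bool, psi (l.map uv).prod = FreeGroup.mk (l.flatMap U2)
  | [] => by
    change psi 1 = 1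
    exact map_one _
  | x :: l => by
    rw [List.map_cons, List.prod_cons, map_mul, mk_U2 l, List.flatMap_cons, ← FreeGroup.mul_mk]
    congr 1
    cases x
    · change psi ga = _
      rw [psi_a]
      rfl
    · change psi (ga * ga * gb) = _
      rw [mul_assoc, map_mul, psi_a, psi_ab]
      rfl

theorem red_U1 (l : List Bool) : FreeGroup.IsReduced (l.flatMap U1) := by
  have h : ∀ y ∈ l.flatMap U1, y.2 = true := by
    intro y hy
    rw [List.mem_flatMap] at hy
    obtain ⟨x, _, hx⟩ := hy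
    cases x
    · simp only [U1, List.mem_singleton] at hx
      rw [hx]
    · simp only [U1, List.mem_cons, List.not_mem_nil, or_false] at hx
      rcases hx with rfl | rfl | rfl <;> rfl
  unfold FreeGroup.IsReduced
  generalize l.flatMap U1 = L at h
  induction L with
  | nil => exact List.isChain_nil
  | cons y L ih =>
    rw [List.isChain_cons]
    refine ⟨?_, ih fun z hz => h z (List.mem_cons_of_mem _ hz)⟩
    intro z hz _
    rw [h y (by simp), h z (List.mem_cons_of_mem _ (List.mem_of_mem_head? hz))]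

theorem head_U2 (l : List Bool) : ∀ y ∈ (l.flatMap U2).head?, y = (0, true) := by
  intro y hy
  cases l with
  | nil => simp at hy
  | cons x l =>
    cases x
    · simp [U2] at hy
      exact hy.symm
    · simp [U2] at hy
      exact hy.symm

theorem red_U2 (l : List Bool) : FreeGroup.IsReduced (l.flatMap U2) := by
  induction l with
  | nil =>
    unfold FreeGroup.IsReduced
    simp
  | cons x l ih =>
    rw [List.flatMap_cons]
    unfold FreeGroup.IsReduced at *
    rw [List.isChain_append]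
    refine ⟨?_, ih, ?_⟩
    · cases x
      · simp [U2]
      · simp [U2]
    · intro y hy z hz
      have h1 := head_U2 l z hz
      subst h1
      cases x
      · simp [U2] at hy
        subst hy
        simp
      · simp [U2] at hy
        subst hy
        simp

theorem W_U : ∀ l : List Bool, W w1 (l.flatMap U1) = W w2 (l.flatMap U2)
  | [] => rfl
  | x :: l => by
    rw [List.flatMap_cons, List.flatMap_cons, W_append, W_append, W_U l]
    congr 1
    cases x
    · simp [U1, U2, W, w1, w2]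
    · simp [U1, U2, W, w1, w2]
      norm_num

theorem reps {n : ℕ} {g : F2} (h : Good n g) : ∃ (L1 : List (Lt 2)) (L2 : List (Lt 3)),
    Rep (m1 n g) L1 ∧ Rep (m2 n g) L2 ∧ W w1 L1 = W w2 L2 := by
  obtain ⟨l, hl, hc⟩ := h
  obtain ⟨x, l', rfl⟩ := List.exists_cons_of_ne_nil hl
  refine ⟨(x :: l').flatMap U1, (x :: l').flatMap U2, ⟨?_, ?_, ?_⟩, ⟨?_, ?_, ?_⟩, W_U _⟩
  · cases x <;> simp [U1]
  · rw [← List.flatMap_append]
    exact red_U1 _
  · rw [← mk_U1]
    exact hc
  · cases x <;> simp [U2]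
  · rw [← List.flatMap_append]
    exact red_U2 _
  · rw [← mk_U2]
    obtain ⟨c, hc⟩ := isConj_iff.mp hc
    rw [isConj_iff]
    refine ⟨psi c, ?_⟩
    rw [m2_apply, ← map_inv, ← map_mul, ← map_mul, hc]

theorem len_eq_of_good {n : ℕ} {g : F2} (h : Good n g ∨ Good n g⁻¹) :
    (T1 n).len g = (T2 n).len g := by
  rcases h with h | h
  · obtain ⟨L1, L2, h1, h2, h3⟩ := reps h
    unfold T1 T2
    rw [lenOf_len w1_nn _ h1, lenOf_len w2_nn _ h2, h3]
  · obtain ⟨L1, L2, h1, h2, h3⟩ := reps h
    have h1' := Rep.inv_rep h1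
    have h2' := Rep.inv_rep h2
    rw [map_inv, inv_inv] at h1' h2'
    unfold T1 T2
    rw [lenOf_len w1_nn _ h1', lenOf_len w2_nn _ h2', W_invRev, W_invRev, h3]

theorem rep_mk {M : ℕ} {g : FreeGroup (Fin M)} {L : List (Lt M)} (h : L ≠ [])
    (hr : FreeGroup.IsReduced (L ++ L)) (hg : g = FreeGroup.mk L) : Rep g L :=
  ⟨h, hr, by rw [hg]⟩

theorem not_same (n : ℕ) : ¬ (T1 n).Same (T2 n) := by
  intro h
  have h1 := congrFun h.len_eq ((alpha n).symm gb)
  have r1 : Rep (m1 n ((alpha n).symm gb)) [(1, true)] := by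
    apply rep_mk (by simp)
    · unfold FreeGroup.IsReduced
      simp
    · rw [m1_apply, MulEquiv.apply_symm_apply]
      rfl
  have r2 : Rep (m2 n ((alpha n).symm gb)) [(0, false), (1, true), (2, true), (1, false)] := by
    apply rep_mk (by simp)
    · unfold FreeGroup.IsReduced
      simp
    · rw [m2_apply, MulEquiv.apply_symm_apply, psi_b]
      rfl
  unfold T1 T2 at h1
  rw [lenOf_len w1_nn _ r1, lenOf_len w2_nn _ r2] at h1
  simp [W, w1, w2] at h1
  norm_num at h1

/-- No finite set of primitive elements of the free group of rank two is `CV_2`-rigid. -/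
theorem result : ¬ ∃ S : Set F2, S.Finite ∧ (∀ s ∈ S, Primitive s) ∧ Rigid S := by
  rintro ⟨S, hS, hp, hr⟩
  obtain ⟨n, hn⟩ := exists_pos_finite hS hp
  exact not_same n (hr _ _ ⟨T1_inCV n, T1_covol n⟩ ⟨T2_inCV n, T2_covol n⟩
    fun g hg => len_eq_of_good (hn g hg))

end Pool.Agent.Results.MP_9fd1ce_al.NoFiniteRigid
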